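import Mathlib
import Pool.Agent.V11306.Cb8

/-!
# Sharp stability for the edge-isoperimetric inequality in the discrete cube

We prove that `f (2^{-j}) = j 2^{-j}` for every positive integer `j`, where `f δ` is the infimum
of `(|∂A| - |A| log₂ (2^n/|A|)) / |A|` over all `n ≥ 1` and all `A ⊆ {0,1}^n` whose size is a
power of two and which satisfy `|A Δ C| ≥ δ |A|` for every subcube `C`.
-/

namespace Pool.Agent.Results.MP_ab80ef_co.SharpStability

open Finset Pool.Agent.V11306.Cb

/-- The hypercube graph `Q_n` on `{0,1}^n`: two vertices are adjacent when they differ in exactly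
one coordinate. -/
def cube (n : ℕ) : SimpleGraph (Fin n → Bool) where
  Adj x y := (univ.filter fun i => x i ≠ y i).card = 1
  symm := ⟨fun x y h => by simpa only [ne_comm] using h⟩
  loopless := ⟨fun x h => by simp at h⟩

/-- The edge boundary of `A`: the edges of `Q_n` with exactly one endpoint in `A`. -/
def boundary {n : ℕ} (A : Finset (Fin n → Bool)) : Set (Sym2 (Fin n → Bool)) :=
  {e | e ∈ (cube n).edgeSet ∧ ∃ x y, x ∈ A ∧ y ∉ A ∧ e = s(x, y)}

/-- Subcubes: sets `{x | x i = a i for all i ∈ S}`. -/
def IsSubcube {n : ℕ} (C : Finset (Fin n → Bool)) : Prop :=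
  ∃ (S : Finset (Fin n)) (a : Fin n → Bool), ∀ x, x ∈ C ↔ ∀ i ∈ S, x i = a i

/-- The quantity `(|∂A| - |A| log₂ (2^n / |A|)) / |A|`. -/
noncomputable def excess {n : ℕ} (A : Finset (Fin n → Bool)) : ℝ :=
  (((boundary A).ncard : ℝ) - A.card * Real.logb 2 (2 ^ n / A.card)) / A.card

/-- The set of values over which the infimum defining `f δ` is taken. -/
def values (δ : ℝ) : Set ℝ :=
  {v | ∃ (n : ℕ) (A : Finset (Fin n → Bool)), 1 ≤ n ∧ (∃ k : ℕ, A.card = 2 ^ k) ∧
    (∀ C : Finset (Fin n → Bool), IsSubcube C → δ * A.card ≤ ((symmDiff A C).card : ℝ)) ∧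
    v = excess A}

/-- `f δ`. -/
noncomputable def f (δ : ℝ) : ℝ := sInf (values δ)

/-! ### translation to families of sets -/

variable {n : ℕ}

/-- flip one coordinate -/
def flip (i : Fin n) (x : Fin n → Bool) : Fin n → Bool := Function.update x i (!x i)

lemma flip_flip (i : Fin n) (x : Fin n → Bool) : flip i (flip i x) = x := by
  unfold flip
  funext k
  by_cases h : k = i
  · subst h; simp
  · simp [h]

lemma flip_ne (i : Fin n) (x : Fin n → Bool) : flip i x ≠ x := by
  intro h
  have := congrFun h i
  simp [flip] at this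

lemma flip_same (i : Fin n) (x : Fin n → Bool) : flip i x i = !x i := by simp [flip]

lemma flip_other {i k : Fin n} (h : k ≠ i) (x : Fin n → Bool) : flip i x k = x k := by
  simp [flip, h]

lemma adj_iff (x y : Fin n → Bool) : (cube n).Adj x y ↔ ∃ i, y = flip i x := by
  constructor
  · intro h
    have h' : (univ.filter fun i => x i ≠ y i).card = 1 := h
    obtain ⟨i, hi⟩ := card_eq_one.1 h'
    refine ⟨i, ?_⟩
    funext k
    by_cases hk : k = i
    · subst hk
      have : k ∈ univ.filter fun i => x i ≠ y i := by rw [hi]; simp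
      rw [mem_filter] at this
      rw [flip_same]
      have h2 := this.2
      cases hx : x k <;> cases hy : y k <;> simp_all
    · have : k ∉ univ.filter fun i => x i ≠ y i := by rw [hi]; simpa using hk
      rw [mem_filter] at this
      rw [flip_other hk]
      by_contra hc
      exact this ⟨mem_univ _, fun h => hc h.symm⟩
  · rintro ⟨i, rfl⟩
    change (univ.filter fun k => x k ≠ flip i x k).card = 1
    rw [card_eq_one]
    refine ⟨i, ?_⟩
    ext k
    rw [mem_filter, mem_singleton]
    constructor
    · intro h
      by_contra hk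
      exact h.2 (flip_other hk x).symm
    · rintro rfl
      refine ⟨mem_univ _, ?_⟩
      rw [flip_same]
      cases x k <;> simp

/-- `x ↦ {i | x i ≠ z i}` -/
def toSet (z x : Fin n → Bool) : Finset (Fin n) := univ.filter fun i => x i ≠ z i

lemma mem_toSet {z x : Fin n → Bool} {i : Fin n} : i ∈ toSet z x ↔ x i ≠ z i := by simp [toSet]

lemma toSet_inj (z : Fin n → Bool) : Function.Injective (toSet z) := by
  intro x y h
  funext i
  have h1 : i ∈ toSet z x ↔ i ∈ toSet z y := by rw [h]
  rw [mem_toSet, mem_toSet] at h1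
  cases hx : x i <;> cases hy : y i <;> cases hz : z i <;> simp_all

lemma toSet_flip_of_notMem {z x : Fin n → Bool} {i : Fin n} (h : x i = z i) :
    toSet z (flip i x) = insert i (toSet z x) := by
  ext k
  rw [mem_insert, mem_toSet, mem_toSet]
  by_cases hk : k = i
  · subst hk
    rw [flip_same, h]
    cases z k <;> simp
  · rw [flip_other hk]; simp [hk]

def fam (z : Fin n → Bool) (A : Finset (Fin n → Bool)) : Finset (Finset (Fin n)) :=
  A.image (toSet z)

lemma mem_fam {z x : Fin n → Bool} {A : Finset (Fin n → Bool)} : toSet z x ∈ fam z A ↔ x ∈ A := by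
  unfold fam
  rw [mem_image]
  constructor
  · rintro ⟨y, hy, h⟩
    rwa [← toSet_inj z h]
  · intro h; exact ⟨x, h, rfl⟩

lemma card_fam (z : Fin n → Bool) (A : Finset (Fin n → Bool)) : (fam z A).card = A.card :=
  card_image_of_injective _ (toSet_inj z)

lemma card_fam_filter (z : Fin n → Bool) (A : Finset (Fin n → Bool)) (P : Finset (Fin n) → Prop)
    [DecidablePred P] :
    ((fam z A).filter P).card = (A.filter (fun x => P (toSet z x))).card := by
  unfold fam
  rw [filter_image, card_image_of_injective _ (toSet_inj z)]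

lemma dg_fam (z : Fin n → Bool) (A : Finset (Fin n → Bool)) (i : Fin n) :
    dg (fam z A) i = (A.filter (fun x => x i = z i ∧ flip i x ∈ A)).card := by
  unfold dg
  rw [card_fam_filter]
  congr 1
  apply filter_congr
  intro x hx
  rw [mem_toSet, not_not]
  constructor
  · rintro ⟨h1, h2⟩
    rw [← toSet_flip_of_notMem h1, mem_fam] at h2
    exact ⟨h1, h2⟩
  · rintro ⟨h1, h2⟩
    refine ⟨h1, ?_⟩
    rw [← toSet_flip_of_notMem h1, mem_fam]
    exact h2

lemma two_dg (z : Fin n → Bool) (A : Finset (Fin n → Bool)) (i : Fin n) :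
    (A.filter (fun x => flip i x ∈ A)).card = 2 * dg (fam z A) i := by
  rw [dg_fam, ← card_filter_add_card_filter_not (s := A.filter (fun x => flip i x ∈ A))
    (fun x => x i = z i), filter_filter, filter_filter]
  have e1 : (A.filter (fun x => flip i x ∈ A ∧ x i = z i)).card
      = (A.filter (fun x => x i = z i ∧ flip i x ∈ A)).card := by
    congr 1; apply filter_congr; intro x _; tauto
  have e2 : (A.filter (fun x => flip i x ∈ A ∧ ¬ x i = z i)).card
      = (A.filter (fun x => x i = z i ∧ flip i x ∈ A)).card := by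
    apply card_bij (fun x _ => flip i x)
    · intro x hx
      rw [mem_filter] at hx ⊢
      refine ⟨hx.2.1, ?_, ?_⟩
      · rw [flip_same]
        have := hx.2.2
        cases hx1 : x i <;> cases hz : z i <;> simp_all
      · rw [flip_flip]; exact hx.1
    · intro x _ y _ h
      rw [← flip_flip i x, h, flip_flip]
    · intro y hy
      rw [mem_filter] at hy
      refine ⟨flip i y, ?_, flip_flip i y⟩
      rw [mem_filter, flip_flip]
      refine ⟨hy.2.2, hy.1, ?_⟩
      rw [flip_same, ← hy.2.1]
      cases y i <;> simp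
  rw [e1, e2]; ring

/-- the size of the edge boundary -/
lemma card_boundary (z : Fin n → Bool) (A : Finset (Fin n → Bool)) :
    (boundary A).ncard + 2 * ed univ (fam z A) = n * A.card := by
  -- the boundary is in bijection with pairs (x, i)
  set P : Finset ((Fin n → Bool) × Fin n) :=
    (A ×ˢ (univ : Finset (Fin n))).filter (fun p => flip p.2 p.1 ∉ A) with hP
  have h1 : (boundary A).ncard = P.card := by
    have himg : boundary A = (P.image (fun p => s(p.1, flip p.2 p.1)) : Finset _) := by
      ext e
      rw [mem_coe, mem_image]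
      constructor
      · rintro ⟨he, x, y, hx, hy, rfl⟩
        rw [SimpleGraph.mem_edgeSet, adj_iff] at he
        obtain ⟨i, rfl⟩ := he
        exact ⟨(x, i), by rw [hP, mem_filter, mem_product]; exact ⟨⟨hx, mem_univ _⟩, hy⟩, rfl⟩
      · rintro ⟨⟨x, i⟩, hp, rfl⟩
        rw [hP, mem_filter, mem_product] at hp
        refine ⟨?_, x, flip i x, hp.1.1, hp.2, rfl⟩
        rw [SimpleGraph.mem_edgeSet, adj_iff]
        exact ⟨i, rfl⟩
    rw [himg, Set.ncard_coe_finset, card_image_of_injOn]
    rintro ⟨x, i⟩ hx ⟨y, k⟩ hy h
    rw [mem_coe, hP, mem_filter, mem_product] at hx hy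
    simp only [Sym2.eq_iff] at h
    rcases h with ⟨h1, h2⟩ | ⟨h1, h2⟩
    · subst h1
      have : i = k := by
        by_contra hne
        have h3 := congrFun h2 i
        rw [flip_same, flip_other hne] at h3
        cases hh : x i <;> simp [hh] at h3
      rw [this]
    · exfalso
      apply hy.2
      rw [← h1]; exact hx.1.1
  have h2 : P.card + ∑ i : Fin n, (A.filter (fun x => flip i x ∈ A)).card = n * A.card := by
    have h3 : P.card = ∑ i : Fin n, (A.filter (fun x => flip i x ∉ A)).card := by
      rw [hP, card_filter, sum_product_right]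
      refine sum_congr rfl fun i _ => ?_
      rw [card_filter]
    rw [h3, ← sum_add_distrib]
    have h4 : ∀ i ∈ (univ : Finset (Fin n)), (A.filter (fun x => flip i x ∉ A)).card
        + (A.filter (fun x => flip i x ∈ A)).card = A.card := by
      intro i _
      rw [add_comm]; exact card_filter_add_card_filter_not _
    rw [sum_congr rfl h4, sum_const, card_univ, Fintype.card_fin, smul_eq_mul]
  have h5 : ∑ i : Fin n, (A.filter (fun x => flip i x ∈ A)).card = 2 * ed univ (fam z A) := by
    unfold ed
    rw [mul_sum]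
    exact sum_congr rfl fun i _ => two_dg z A i
  omega

lemma excess_eq {A : Finset (Fin n → Bool)} {k : ℕ} (hk : A.card = 2 ^ k) (z : Fin n → Bool) :
    excess A = ((k : ℝ) * 2 ^ k - 2 * ed univ (fam z A)) / 2 ^ k := by
  have h := card_boundary z A
  have h' : ((boundary A).ncard : ℝ) + 2 * ed univ (fam z A) = n * A.card := by exact_mod_cast h
  have hc : ((A.card : ℕ) : ℝ) = 2 ^ k := by rw [hk]; push_cast; ring
  unfold excess
  rw [hc] at h' ⊢
  have hlog : Real.logb 2 (2 ^ n / 2 ^ k) = n - k := by
    rw [Real.logb_div (by positivity) (by positivity), Real.logb_pow, Real.logb_pow,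
      Real.logb_self_eq_one (by norm_num)]
    ring
  rw [hlog]
  congr 1
  linarith

/-- the subcube through `z` fixing the coordinates in `S` -/
def subc (z : Fin n → Bool) (S : Finset (Fin n)) : Finset (Fin n → Bool) :=
  univ.filter fun x => ∀ i ∈ S, x i = z i

lemma card_subc (z : Fin n → Bool) (S : Finset (Fin n)) :
    (subc z S).card = 2 ^ ((univ : Finset (Fin n)) \ S).card := by
  rw [← card_powerset]
  apply card_bij (fun x _ => toSet z x)
  · intro x hx
    unfold subc at hx
    rw [mem_filter] at hx
    rw [mem_powerset]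
    intro i hi
    rw [mem_toSet] at hi
    rw [mem_sdiff]
    exact ⟨mem_univ _, fun h => hi (hx.2 i h)⟩
  · intro x _ y _ h; exact toSet_inj z h
  · intro T hT
    rw [mem_powerset] at hT
    refine ⟨fun i => if i ∈ T then !z i else z i, ?_, ?_⟩
    · unfold subc
      rw [mem_filter]
      refine ⟨mem_univ _, fun i hi => ?_⟩
      have : i ∉ T := fun h => (mem_sdiff.1 (hT h)).2 hi
      simp [this]
    · ext i
      rw [mem_toSet]
      by_cases h : i ∈ T
      · simp only [h, if_true, iff_true]; cases z i <;> simp
      · simp [h]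

lemma lower {A : Finset (Fin n → Bool)} {k j : ℕ} (hj : 1 ≤ j) (hk : A.card = 2 ^ k)
    (hfar : ∀ C : Finset (Fin n → Bool), IsSubcube C →
      (1 / 2 : ℝ) ^ j * A.card ≤ ((symmDiff A C).card : ℝ)) :
    (j : ℝ) * (1 / 2) ^ j ≤ excess A := by
  classical
  -- majority values
  set z : Fin n → Bool := fun i =>
    decide ((A.filter (fun x => x i = false)).card ≤ (A.filter (fun x => x i = true)).card) with hz
  have hcard : (fam z A).card = 2 ^ k := by rw [card_fam, hk]
  have hmaj : ∀ i ∈ (univ : Finset (Fin n)), ((fam z A).memberSubfamily i).card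
      ≤ ((fam z A).nonMemberSubfamily i).card := by
    intro i _
    have e0 : ((fam z A).nonMemberSubfamily i).card = (A.filter (fun x => x i = z i)).card := by
      have : (fam z A).nonMemberSubfamily i = (fam z A).filter (fun X => i ∉ X) := rfl
      rw [this, card_fam_filter]
      congr 1
      apply filter_congr
      intro x _
      rw [mem_toSet, not_not]
    have e1 := card_split (fam z A) i
    rw [card_fam, e0] at e1
    have e2 := card_filter_add_card_filter_not (s := A) (fun x => x i = z i)
    have e3 : (A.filter (fun x => ¬ x i = z i)).card ≤ (A.filter (fun x => x i = z i)).card := by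
      by_cases h : (A.filter (fun x => x i = false)).card ≤ (A.filter (fun x => x i = true)).card
      · have hzi : z i = true := by rw [hz]; simpa using h
        rw [hzi]
        refine le_trans (le_of_eq ?_) h
        congr 1; apply filter_congr; intro x _; cases x i <;> simp
      · have hzi : z i = false := by rw [hz]; simpa using h
        rw [hzi]
        refine le_trans (le_of_eq ?_) (le_of_lt (not_le.1 h))
        congr 1; apply filter_congr; intro x _; cases x i <;> simp
    rw [e0]
    omega
  have hfar' : ∀ S : Finset (Fin n), S ⊆ univ → ((univ : Finset (Fin n)) \ S).card = k →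
      2 ^ k ≤ 2 * (cR (fam z A) S).card * 2 ^ j := by
    intro S _ hS
    have h1 := hfar (subc z S) ⟨S, z, fun x => by simp [subc]⟩
    have h2 : (subc z S).card = 2 ^ k := by rw [card_subc, hS]
    have h3 : (cR (fam z A) S).card = (A \ subc z S).card := by
      unfold cR
      rw [card_fam_filter]
      congr 1
      ext x
      rw [mem_filter, mem_sdiff, not_disjoint_iff]
      unfold subc
      rw [mem_filter]
      constructor
      · rintro ⟨h4, i, h5, h6⟩
        exact ⟨h4, fun h7 => (mem_toSet.1 h5) (h7.2 i h6)⟩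
      · rintro ⟨h4, h5⟩
        push Not at h5
        obtain ⟨i, h6, h7⟩ := h5 (mem_univ _)
        exact ⟨h4, i, mem_toSet.2 h7, h6⟩
    have h4 : (symmDiff A (subc z S)).card = 2 * (cR (fam z A) S).card := by
      rw [h3]
      have e1 : (symmDiff A (subc z S)).card = (A \ subc z S).card + (subc z S \ A).card := by
        rw [Finset.symmDiff_def, card_union_of_disjoint]
        exact disjoint_sdiff_sdiff
      have e2 := card_sdiff_add_card_inter A (subc z S)
      have e3 := card_sdiff_add_card_inter (subc z S) A
      rw [inter_comm] at e3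
      omega
    rw [h4, hk] at h1
    have h5 : (0 : ℝ) < 2 ^ j := by positivity
    have h6 : (2 : ℝ) ^ k ≤ 2 * (cR (fam z A) S).card * 2 ^ j := by
      have := mul_le_mul_of_nonneg_right h1 h5.le
      push_cast at this
      have e : (1 / 2 : ℝ) ^ j * 2 ^ k * 2 ^ j = 2 ^ k := by
        rw [div_pow, one_pow]; field_simp
      rw [e] at this
      exact this
    exact_mod_cast h6
  have hmain := main_fam (J := univ) (A := fam z A) (fun x _ => mem_powerset.2 (subset_univ x))
    hj hcard hmaj hfar'
  rw [excess_eq hk z, le_div_iff₀ (by positivity)]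
  have h7 : (j : ℝ) * 2 ^ k ≤ (k * 2 ^ k - 2 * (ed univ (fam z A) : ℝ)) * 2 ^ j := by
    exact_mod_cast hmain
  have h8 : (j : ℝ) * (1 / 2) ^ j * 2 ^ k = (j * 2 ^ k) / 2 ^ j := by
    rw [div_pow, one_pow]; field_simp
  rw [h8, div_le_iff₀ (by positivity)]
  exact h7

/-! ### the extremal example -/

/-- all subsets of `{0,..,j}` except the full one, together with `{j+1}` -/
def exFam (j : ℕ) : Finset (Finset (Fin (j + 2))) :=
  insert {Fin.last (j + 1)}
    (((univ : Finset (Fin (j + 2))).erase (Fin.last (j + 1))).powerset.erase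
      ((univ : Finset (Fin (j + 2))).erase (Fin.last (j + 1))))

/-- the extremal set -/
def exSet (j : ℕ) : Finset (Fin (j + 2) → Bool) :=
  univ.filter fun x => toSet (fun _ => false) x ∈ exFam j

lemma toSet_surj {n : ℕ} (z : Fin n → Bool) (T : Finset (Fin n)) : ∃ x, toSet z x = T := by
  refine ⟨fun i => if i ∈ T then !z i else z i, ?_⟩
  ext i
  rw [mem_toSet]
  by_cases h : i ∈ T
  · simp only [h, if_true, iff_true]; cases z i <;> simp
  · simp [h]

lemma fam_exSet (j : ℕ) : fam (fun _ => false) (exSet j) = exFam j := by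
  ext T
  obtain ⟨x, rfl⟩ := toSet_surj (fun _ => false) T
  rw [mem_fam]
  simp [exSet]

lemma card_exFam (j : ℕ) : (exFam j).card = 2 ^ (j + 1) := by
  unfold exFam
  rw [card_insert_of_notMem, card_erase_of_mem, card_powerset, card_erase_of_mem (mem_univ _),
    card_univ, Fintype.card_fin]
  · have : 0 < 2 ^ (j + 2 - 1) := by positivity
    have e : j + 2 - 1 = j + 1 := by omega
    rw [e] at this ⊢
    omega
  · rw [mem_powerset]
  · rw [mem_erase, mem_powerset]
    rintro ⟨_, h⟩
    have := h (mem_singleton_self (Fin.last (j + 1)))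
    simp at this

lemma card_exSet (j : ℕ) : (exSet j).card = 2 ^ (j + 1) := by
  rw [← card_fam (fun _ => false), fam_exSet, card_exFam]

lemma ed_exFam (j : ℕ) : (j + 1) * 2 ^ j ≤ ed univ (exFam j) + j := by
  have h1 : ∀ i ∈ (univ : Finset (Fin (j + 2))).erase (Fin.last (j + 1)),
      2 ^ j ≤ dg (exFam j) i + 1 := by
    intro i hi
    have hil : i ≠ Fin.last (j + 1) := ne_of_mem_erase hi
    set W := ((univ : Finset (Fin (j + 2))).erase (Fin.last (j + 1))).erase i with hW
    have hWc : W.card = j := by
      rw [hW, card_erase_of_mem hi, card_erase_of_mem (mem_univ _), card_univ, Fintype.card_fin]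
      omega
    have h2 : W.powerset.erase W ⊆ (exFam j).filter (fun x => i ∉ x ∧ insert i x ∈ exFam j) := by
      intro x hx
      rw [mem_erase, mem_powerset] at hx
      obtain ⟨hx1, hx2⟩ := hx
      have hix : i ∉ x := fun h => by
        have := hx2 h
        rw [hW] at this
        simp at this
      have hlx : Fin.last (j + 1) ∉ x := fun h => by
        have := hx2 h
        rw [hW] at this
        simp at this
      rw [mem_filter]
      refine ⟨?_, hix, ?_⟩
      · unfold exFam
        rw [mem_insert, mem_erase, mem_powerset]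
        right
        refine ⟨?_, ?_⟩
        · intro h
          exact hix (by rw [h]; exact hi)
        · intro y hy
          rw [mem_erase]
          exact ⟨fun h => hlx (h ▸ hy), mem_univ _⟩
      · unfold exFam
        rw [mem_insert, mem_erase, mem_powerset]
        right
        refine ⟨?_, ?_⟩
        · intro h
          apply hx1
          apply Subset.antisymm hx2
          intro y hy
          rw [hW, mem_erase] at hy
          have : y ∈ insert i x := by rw [h]; exact hy.2
          rcases mem_insert.1 this with h3 | h3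
          · exact absurd h3 hy.1
          · exact h3
        · intro y hy
          rw [mem_erase]
          refine ⟨?_, mem_univ _⟩
          rcases mem_insert.1 hy with h3 | h3
          · rw [h3]; exact hil
          · exact fun h => hlx (h ▸ h3)
    have h3 := card_le_card h2
    rw [card_erase_of_mem (mem_powerset.2 (Subset.refl W)), card_powerset, hWc] at h3
    unfold dg
    omega
  have h2 : 1 ≤ dg (exFam j) (Fin.last (j + 1)) := by
    unfold dg
    rw [Nat.one_le_iff_ne_zero, ← Nat.pos_iff_ne_zero, card_pos]
    refine ⟨∅, ?_⟩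
    rw [mem_filter]
    refine ⟨?_, by simp, ?_⟩
    · unfold exFam
      rw [mem_insert, mem_erase, mem_powerset]
      right
      refine ⟨?_, empty_subset _⟩
      intro h
      have : (0 : Fin (j + 2)) ∈ (univ : Finset (Fin (j + 2))).erase (Fin.last (j + 1)) := by
        rw [mem_erase]
        refine ⟨?_, mem_univ _⟩
        intro h0
        have := congrArg Fin.val h0
        simp at this
      rw [← h] at this
      simp at this
    · unfold exFam
      rw [mem_insert]
      left; rfl
  have h3 : ed univ (exFam j) = dg (exFam j) (Fin.last (j + 1))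
      + ∑ i ∈ (univ : Finset (Fin (j + 2))).erase (Fin.last (j + 1)), dg (exFam j) i := by
    unfold ed
    rw [add_sum_erase univ _ (mem_univ _)]
  have h4 : (j + 1) * 2 ^ j ≤ ∑ i ∈ (univ : Finset (Fin (j + 2))).erase (Fin.last (j + 1)),
      dg (exFam j) i + (j + 1) := by
    have h5 := sum_le_sum h1
    rw [sum_const, sum_add_distrib, sum_const, card_erase_of_mem (mem_univ _), card_univ,
      Fintype.card_fin, smul_eq_mul, smul_eq_mul, mul_one] at h5
    have e : j + 2 - 1 = j + 1 := by omega
    rw [e] at h5
    exact h5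
  omega

lemma excess_exSet (j : ℕ) : excess (exSet j) ≤ (j : ℝ) * (1 / 2) ^ j := by
  rw [excess_eq (card_exSet j) (fun _ => false), fam_exSet, div_le_iff₀ (by positivity)]
  have h := ed_exFam j
  have h' : ((j : ℝ) + 1) * 2 ^ j ≤ ed univ (exFam j) + j := by exact_mod_cast h
  have e : (j : ℝ) * (1 / 2) ^ j * 2 ^ (j + 1) = 2 * j := by
    rw [div_pow, one_pow, pow_succ]; field_simp
  rw [e, pow_succ]
  push_cast
  linarith

lemma far_exSet {j : ℕ} (hj : 1 ≤ j) (C : Finset (Fin (j + 2) → Bool)) (hC : IsSubcube C) :
    2 ≤ (symmDiff (exSet j) C).card := by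
  obtain ⟨S, a, hSa⟩ := hC
  have hCe : C = subc a S := by
    ext x; rw [hSa]; simp [subc]
  have hCc := card_subc a S
  rw [← hCe] at hCc
  have e1 : (symmDiff (exSet j) C).card = (exSet j \ C).card + (C \ exSet j).card := by
    rw [Finset.symmDiff_def, card_union_of_disjoint]
    exact disjoint_sdiff_sdiff
  have e2 := card_sdiff_add_card_inter (exSet j) C
  have e3 := card_sdiff_add_card_inter C (exSet j)
  rw [inter_comm] at e3
  have hA := card_exSet j
  by_contra hlt
  push Not at hlt
  have hp : 2 ^ (j + 1) = 2 * 2 ^ j := by rw [pow_succ]; ring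
  have hp2 : 2 ≤ 2 ^ j := by
    calc 2 = 2 ^ 1 := by norm_num
      _ ≤ 2 ^ j := Nat.pow_le_pow_right (by norm_num) hj
  have heq : (symmDiff (exSet j) C).card = 0 := by
    rcases Nat.eq_zero_or_pos ((univ : Finset (Fin (j + 2))) \ S).card with h0 | h0
    · rw [h0, pow_zero] at hCc
      omega
    · obtain ⟨m, hm⟩ : ∃ m, ((univ : Finset (Fin (j + 2))) \ S).card = m + 1 :=
        ⟨_, (Nat.sub_add_cancel h0).symm⟩
      rw [hm, pow_succ] at hCc
      omega
  rw [card_eq_zero] at heq
  have hAC : exSet j = C := by
    have := symmDiff_eq_bot.1 (show symmDiff (exSet j) C = ⊥ from heq)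
    exact this
  -- membership
  have mem : ∀ T : Finset (Fin (j + 2)), (fun i => decide (i ∈ T)) ∈ exSet j ↔ T ∈ exFam j := by
    intro T
    unfold exSet
    rw [mem_filter]
    have : toSet (fun _ => false) (fun i => decide (i ∈ T)) = T := by
      ext i; rw [mem_toSet]; simp
    rw [this]; simp
  have m0 : (∅ : Finset (Fin (j + 2))) ∈ exFam j := by
    unfold exFam
    rw [mem_insert, mem_erase, mem_powerset]
    right
    refine ⟨?_, empty_subset _⟩
    intro h
    have : (0 : Fin (j + 2)) ∈ (univ : Finset (Fin (j + 2))).erase (Fin.last (j + 1)) := by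
      rw [mem_erase]
      refine ⟨?_, mem_univ _⟩
      intro h0
      have := congrArg Fin.val h0
      simp at this
    rw [← h] at this
    simp at this
  have m1 : ({Fin.last (j + 1)} : Finset (Fin (j + 2))) ∈ exFam j := by
    unfold exFam; rw [mem_insert]; left; rfl
  have h0l : (0 : Fin (j + 2)) ≠ Fin.last (j + 1) := by
    intro h0
    have := congrArg Fin.val h0
    simp at this
  have m2 : ({0} : Finset (Fin (j + 2))) ∈ exFam j := by
    unfold exFam
    rw [mem_insert, mem_erase, mem_powerset]
    right
    refine ⟨?_, ?_⟩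
    · intro h
      have h1 : (1 : Fin (j + 2)) ∈ (univ : Finset (Fin (j + 2))).erase (Fin.last (j + 1)) := by
        rw [mem_erase]
        refine ⟨?_, mem_univ _⟩
        intro h1
        have := congrArg Fin.val h1
        have e : ((1 : Fin (j + 2)) : ℕ) = 1 := by
          rw [Fin.val_one']
          exact Nat.mod_eq_of_lt (by omega)
        rw [e, Fin.val_last] at this
        omega
      rw [← h, mem_singleton] at h1
      have := congrArg Fin.val h1
      have e : ((1 : Fin (j + 2)) : ℕ) = 1 := by
        rw [Fin.val_one']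
        exact Nat.mod_eq_of_lt (by omega)
      rw [e] at this
      simp at this
    · intro y hy
      rw [mem_singleton] at hy
      rw [hy, mem_erase]
      exact ⟨h0l, mem_univ _⟩
  have k0 := (hSa _).1 (hAC ▸ (mem ∅).2 m0)
  have k1 := (hSa _).1 (hAC ▸ (mem {Fin.last (j + 1)}).2 m1)
  have k2 := (hSa _).1 (hAC ▸ (mem {0}).2 m2)
  have k3 : (fun i => decide (i ∈ ({0, Fin.last (j + 1)} : Finset (Fin (j + 2))))) ∈ C := by
    rw [hSa]
    intro i hi
    have a0 := k0 i hi
    have a1 := k1 i hi
    have a2 := k2 i hi
    simp only [notMem_empty, decide_false] at a0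
    rw [← a0] at a1 a2 ⊢
    rw [decide_eq_false_iff_not, mem_singleton] at a1 a2
    rw [decide_eq_false_iff_not, mem_insert, mem_singleton]
    tauto
  rw [← hAC, mem] at k3
  unfold exFam at k3
  rw [mem_insert, mem_erase, mem_powerset] at k3
  rcases k3 with h | ⟨_, h⟩
  · have : (0 : Fin (j + 2)) ∈ ({Fin.last (j + 1)} : Finset (Fin (j + 2))) := by
      rw [← h]; simp
    rw [mem_singleton] at this
    exact h0l this
  · have := h (show Fin.last (j + 1) ∈ ({0, Fin.last (j + 1)} : Finset (Fin (j + 2))) by simp)
    simp at this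

theorem isLeast (j : ℕ) (hj : 1 ≤ j) : IsLeast (values ((1 / 2) ^ j)) ((j : ℝ) * (1 / 2) ^ j) := by
  have hlow : ∀ v ∈ values ((1 / 2) ^ j), (j : ℝ) * (1 / 2) ^ j ≤ v := by
    rintro v ⟨n, A, _, ⟨k, hk⟩, hfar, rfl⟩
    exact lower hj hk hfar
  have hfar : ∀ C : Finset (Fin (j + 2) → Bool), IsSubcube C →
      (1 / 2 : ℝ) ^ j * (exSet j).card ≤ ((symmDiff (exSet j) C).card : ℝ) := by
    intro C hC
    have h := far_exSet hj C hC
    rw [card_exSet]
    have e : (1 / 2 : ℝ) ^ j * ((2 ^ (j + 1) : ℕ) : ℝ) = 2 := by
      rw [div_pow, one_pow]; push_cast; rw [pow_succ]; field_simp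
    rw [e]
    exact_mod_cast h
  refine ⟨⟨j + 2, exSet j, by omega, ⟨j + 1, card_exSet j⟩, hfar, ?_⟩, hlow⟩
  exact le_antisymm (lower hj (card_exSet j) hfar) (excess_exSet j)

/-- **Theorem.** `f (2^{-j}) = j 2^{-j}` for every positive integer `j`; the infimum is attained. -/
theorem result : ∀ j : ℕ, 1 ≤ j →
    f ((1 / 2) ^ j) = (j : ℝ) * (1 / 2) ^ j ∧
      IsLeast (values ((1 / 2) ^ j)) ((j : ℝ) * (1 / 2) ^ j) :=
  fun j hj => ⟨(isLeast j hj).csInf_eq, isLeast j hj⟩

end Pool.Agent.Results.MP_ab80ef_co.SharpStability
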